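import Mathlib
import Pool.Agent.Helper74.Iso.Charts
import Pool.Agent.Helper74.Iso3.Defs3

/-!
# IS-M3b: box charts at boundary points
-/

namespace Pool.Agent.Helper74.Iso3

open Module InnerProductSpace MeasureTheory Set Filter Topology
open Pool.Agent.Helper74.Iso Pool.Agent.Helper74.Iso2
open scoped ContDiff ENNReal NNReal

set_option linter.unusedSectionVars false

variable {E : Type*} [NormedAddCommGroup E] [InnerProductSpace ℝ E] [FiniteDimensional ℝ E]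

/-- the positive tangent cone is mapped to the positive tangent cone -/
theorem m3_pos_mapsTo {F G : Type*} [NormedAddCommGroup F] [NormedSpace ℝ F]
    [NormedAddCommGroup G] [NormedSpace ℝ G] {f : F → G} {f' : F →L[ℝ] G} {s : Set F} {x : F}
    (h : HasFDerivWithinAt f f' s x) :
    MapsTo f' (posTangentConeAt s x) (posTangentConeAt (f '' s) (f x)) := by
  intro y hy
  rcases exists_fun_of_mem_tangentConeAt hy with ⟨ι, l, hl, c, d, hd₀, hds, hcd⟩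
  apply mem_tangentConeAt_of_seq l c (fun n ↦ f (x + d n) - f x)
  · rw [tendsto_sub_nhds_zero_iff]
    refine h.continuousWithinAt.tendsto.comp <| tendsto_nhdsWithin_iff.mpr ⟨?_, hds⟩
    simpa using tendsto_const_nhds.add hd₀
  · exact hds.mono fun n hn ↦ ⟨x + d n, hn, by simp⟩
  · have h1 := h.lim hd₀ hds (c := fun n => (c n : ℝ)) (v := y) (by simpa [NNReal.smul_def] using hcd)
    simpa [NNReal.smul_def] using h1

/-- an orthonormal basis of a plane, the first vector being given up to a positive factor -/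
theorem m3_basis {K : Submodule ℝ E} (hK : finrank ℝ K = 2) {e : E} (he : e ∈ K) (he0 : e ≠ 0) :
    ∃ e₁ ∈ K, ∃ e₂ ∈ K, e = ‖e‖ • e₁ ∧ ⟪e₁, e₁⟫_ℝ = 1 ∧ ⟪e₁, e₂⟫_ℝ = 0 ∧ ⟪e₂, e₁⟫_ℝ = 0 ∧
      ⟪e₂, e₂⟫_ℝ = 1 ∧
      ∀ v ∈ K, v = ⟪e₁, v⟫_ℝ • e₁ + ⟪e₂, v⟫_ℝ • e₂ := by
  have hn : ‖e‖ ≠ 0 := norm_ne_zero_iff.2 he0
  let v : Fin 2 → K := fun _ => ⟨(‖e‖)⁻¹ • e, K.smul_mem _ he⟩
  have hv : Orthonormal ℝ (({0} : Set (Fin 2)).domRestrict v) := by
    constructor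
    · intro i
      show ‖v i‖ = 1
      show ‖(‖e‖)⁻¹ • e‖ = 1
      rw [norm_smul, norm_inv, norm_norm, inv_mul_cancel₀ hn]
    · intro i j hij
      exact absurd (Subsingleton.elim i j) hij
  obtain ⟨b, hb⟩ := hv.exists_orthonormalBasis_extension_of_card_eq (by simpa using hK)
  have hb0 : (b 0 : E) = (‖e‖)⁻¹ • e := by rw [hb 0 rfl]
  have ho := b.orthonormal
  have h00 : ⟪(b 0 : E), (b 0 : E)⟫_ℝ = 1 := by
    have := (orthonormal_iff_ite.1 ho) 0 0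
    rw [if_pos rfl] at this
    exact this
  have h11 : ⟪(b 1 : E), (b 1 : E)⟫_ℝ = 1 := by
    have := (orthonormal_iff_ite.1 ho) 1 1
    rw [if_pos rfl] at this
    exact this
  have h01 : ⟪(b 0 : E), (b 1 : E)⟫_ℝ = 0 := by
    have := (orthonormal_iff_ite.1 ho) 0 1
    rw [if_neg (by decide)] at this
    exact this
  refine ⟨b 0, (b 0).2, b 1, (b 1).2, ?_, h00, h01, ?_, h11, ?_⟩
  · rw [hb0, smul_smul, mul_inv_cancel₀ hn, one_smul]
  · rw [real_inner_comm]; exact h01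
  · intro w hw
    have := b.sum_repr' ⟨w, hw⟩
    have h2 := congrArg (Subtype.val : K → E) this
    simp only [Fin.sum_univ_two, Submodule.coe_add, Submodule.coe_smul, Submodule.coe_inner] at h2
    exact h2.symm

section chart

variable {Φ : OpenPartialHomeomorph E E}

/-- the affine parametrisation of the plane -/
def m3L (x₀ e₁ e₂ : E) (k : ℝ × ℝ) : E := x₀ + (k.1 • e₁ + k.2 • e₂)

/-- its linear part -/
noncomputable def m3L' (e₁ e₂ : E) : ℝ × ℝ →L[ℝ] E :=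
  (ContinuousLinearMap.fst ℝ ℝ ℝ).smulRight e₁ + (ContinuousLinearMap.snd ℝ ℝ ℝ).smulRight e₂

lemma m3L'_apply (e₁ e₂ : E) (k : ℝ × ℝ) : m3L' e₁ e₂ k = k.1 • e₁ + k.2 • e₂ := rfl

lemma m3L_eq (x₀ e₁ e₂ : E) (k : ℝ × ℝ) : m3L x₀ e₁ e₂ k = x₀ + m3L' e₁ e₂ k := rfl

lemma m3_hasFDerivAt (x₀ e₁ e₂ : E) (k : ℝ × ℝ) :
    HasFDerivAt (m3L x₀ e₁ e₂) (m3L' e₁ e₂) k :=
  (m3L' e₁ e₂).hasFDerivAt.const_add x₀

lemma m3_contDiff (x₀ e₁ e₂ : E) : ContDiff ℝ ∞ (m3L x₀ e₁ e₂) := by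
  show ContDiff ℝ ∞ (fun k => x₀ + m3L' e₁ e₂ k)
  exact contDiff_const.add (m3L' e₁ e₂).contDiff

lemma m3L'_inj {e₁ e₂ : E} (h11 : ⟪e₁, e₁⟫_ℝ = 1) (h12 : ⟪e₁, e₂⟫_ℝ = 0) (h21 : ⟪e₂, e₁⟫_ℝ = 0)
    (h22 : ⟪e₂, e₂⟫_ℝ = 1) : Function.Injective (m3L' e₁ e₂) := by
  intro k k' h
  rw [m3L'_apply, m3L'_apply] at h
  have h1 := congrArg (fun v => ⟪e₁, v⟫_ℝ) h
  have h2 := congrArg (fun v => ⟪e₂, v⟫_ℝ) h
  simp only [inner_add_right, inner_smul_right, h11, h12, h21, h22, mul_one, mul_zero, add_zero,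
    zero_add] at h1 h2
  exact Prod.ext h1 h2

/-- the tangent cone of `M` at a point in a boundary chart -/
lemma m3_pos_cone (h1 : ContDiffOn ℝ ∞ Φ Φ.source) {M : Set E} {K : Submodule ℝ E} {e : E}
    (hM : ∀ x ∈ Φ.source, x ∈ M ↔ Φ x ∈ K ∧ 0 ≤ ⟪e, Φ x⟫_ℝ) {x : E} (hx : x ∈ Φ.source)
    (hxM : x ∈ M) {v : E} (hv : v ∈ posTangentConeAt M x) :
    fderiv ℝ Φ x v ∈ K ∧ (⟪e, Φ x⟫_ℝ = 0 → 0 ≤ ⟪e, fderiv ℝ Φ x v⟫_ℝ) := by
  have hxK : Φ x ∈ K := ((hM x hx).1 hxM).1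
  rw [posTangentConeAt, ← tangentConeAt_inter_nhds (Φ.open_source.mem_nhds hx)] at hv
  have hd : HasFDerivWithinAt Φ (fderiv ℝ Φ x) (M ∩ Φ.source) x :=
    (differentiableAt_chart h1 hx).hasFDerivAt.hasFDerivWithinAt
  have h3 := m3_pos_mapsTo hd hv
  obtain ⟨ι, l, hl, c, d, hd₀, hds, hcd⟩ := exists_fun_of_mem_tangentConeAt h3
  have hds' : ∀ᶠ n in l, Φ x + d n ∈ K ∧ 0 ≤ ⟪e, Φ x + d n⟫_ℝ := by
    filter_upwards [hds] with n hn
    obtain ⟨y, ⟨hyM, hyS⟩, hy⟩ := hn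
    rw [← hy]
    exact (hM y hyS).1 hyM
  have hcl : IsClosed (K : Set E) := K.closed_of_finiteDimensional
  constructor
  · refine hcl.mem_of_tendsto hcd ?_
    filter_upwards [hds'] with n hn
    rw [NNReal.smul_def]
    apply K.smul_mem
    have h := K.sub_mem hn.1 hxK
    simpa using h
  · intro h0
    have h4 : Tendsto (fun n => ⟪e, c n • d n⟫_ℝ) l (𝓝 ⟪e, fderiv ℝ Φ x v⟫_ℝ) :=
      tendsto_const_nhds.inner hcd
    refine ge_of_tendsto h4 ?_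
    filter_upwards [hds'] with n hn
    rw [NNReal.smul_def, inner_smul_right]
    apply mul_nonneg (c n).2
    have := hn.2
    rw [inner_add_right, h0, zero_add] at this
    exact this

lemma m3_cone (h1 : ContDiffOn ℝ ∞ Φ Φ.source) {M : Set E} {K : Submodule ℝ E} {e : E}
    (hM : ∀ x ∈ Φ.source, x ∈ M ↔ Φ x ∈ K ∧ 0 ≤ ⟪e, Φ x⟫_ℝ) {x : E} (hx : x ∈ Φ.source)
    (hxM : x ∈ M) {v : E} (hv : v ∈ tangentConeAt ℝ M x) : fderiv ℝ Φ x v ∈ K := by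
  have hxK : Φ x ∈ K := ((hM x hx).1 hxM).1
  rw [← tangentConeAt_inter_nhds (Φ.open_source.mem_nhds hx)] at hv
  have hd : HasFDerivWithinAt Φ (fderiv ℝ Φ x) (M ∩ Φ.source) x :=
    (differentiableAt_chart h1 hx).hasFDerivAt.hasFDerivWithinAt
  have h3 := hd.mapsTo_tangent_cone hv
  refine tangentConeAt_submodule hxK (tangentConeAt_mono ?_ h3)
  rintro _ ⟨y, ⟨hyM, hyS⟩, rfl⟩
  exact ((hM y hyS).1 hyM).1

end chart

theorem exists_box_boundary {M B : Set E} (h : IsCompactSurfaceWithBoundary M B) {x : E}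
    (hx : x ∈ B) : ∃ (N : Set E) (P : ℝ × ℝ → E) (Ω : Set (ℝ × ℝ)) (r : ℝ) (f : E → ℝ),
      x ∈ N ∧ BdBox M B N P Ω r f := by
  obtain ⟨Φ, K, e, h1, h2, hxs, hK, heK, he0, hM, hB⟩ := h.boundary_point x hx
  obtain ⟨e₁, he₁, e₂, he₂, hee, h11, h12, h21, h22, hrep⟩ := m3_basis hK heK he0
  have hne : 0 < ‖e‖ := norm_pos_iff.2 he0
  have hin : ∀ y : E, ⟪e, y⟫_ℝ = ‖e‖ * ⟪e₁, y⟫_ℝ := by
    intro y
    conv_lhs => rw [hee]
    rw [real_inner_smul_left]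
  set x₀ := Φ x with hx₀
  have hx₀K : x₀ ∈ K := ((hB x hxs).1 hx).1
  have hx₀e : ⟪e₁, x₀⟫_ℝ = 0 := by
    have h3 := ((hB x hxs).1 hx).2
    rw [hin] at h3
    exact (mul_eq_zero.1 h3).resolve_left hne.ne'
  have hx₀t : x₀ ∈ Φ.target := Φ.map_source hxs
  let L : ℝ × ℝ → E := m3L x₀ e₁ e₂
  let A : ℝ × ℝ →L[ℝ] E := m3L' e₁ e₂
  have hL : ∀ k, L k = x₀ + (k.1 • e₁ + k.2 • e₂) := fun k => rfl
  have hA : ∀ k, A k = k.1 • e₁ + k.2 • e₂ := fun k => rfl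
  have hAinj : Function.Injective A := m3L'_inj h11 h12 h21 h22
  have hLc : Continuous L := (m3_contDiff x₀ e₁ e₂).continuous
  have hL0 : L 0 = x₀ := by simp [hL]
  have hLK : ∀ k, L k ∈ K := fun k =>
    K.add_mem hx₀K (K.add_mem (K.smul_mem _ he₁) (K.smul_mem _ he₂))
  have hL1 : ∀ k, ⟪e₁, L k - x₀⟫_ℝ = k.1 := by
    intro k
    rw [hL, add_sub_cancel_left, inner_add_right, inner_smul_right, inner_smul_right, h11, h12]
    ring
  have hL2 : ∀ k, ⟪e₂, L k - x₀⟫_ℝ = k.2 := by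
    intro k
    rw [hL, add_sub_cancel_left, inner_add_right, inner_smul_right, inner_smul_right, h21, h22]
    ring
  have hL1' : ∀ k, ⟪e₁, L k⟫_ℝ = k.1 := by
    intro k
    have h3 := hL1 k
    rw [inner_sub_right, hx₀e, sub_zero] at h3
    exact h3
  have hLeq : ∀ y ∈ K, y = L (⟪e₁, y - x₀⟫_ℝ, ⟪e₂, y - x₀⟫_ℝ) := by
    intro y hy
    have h3 := hrep (y - x₀) (K.sub_mem hy hx₀K)
    rw [hL]
    simp only
    rw [← h3]
    abel
  set Ω : Set (ℝ × ℝ) := L ⁻¹' Φ.target with hΩ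
  have hΩo : IsOpen Ω := Φ.open_target.preimage hLc
  have h0Ω : (0 : ℝ × ℝ) ∈ Ω := by
    show L 0 ∈ Φ.target
    rw [hL0]; exact hx₀t
  obtain ⟨ε, hε, hball⟩ := Metric.isOpen_iff.1 hΩo 0 h0Ω
  set r : ℝ := ε / 2 with hr
  have hrpos : 0 < r := by positivity
  have hbox : ∀ k : ℝ × ℝ, k.1 ∈ Icc (-r) r → k.2 ∈ Icc (-r) r → k ∈ Ω := by
    intro k hk1 hk2
    apply hball
    rw [Metric.mem_ball, dist_zero_right, Prod.norm_def, max_lt_iff, Real.norm_eq_abs,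
      Real.norm_eq_abs]
    constructor
    · have := abs_le.2 ⟨hk1.1, hk1.2⟩; linarith
    · have := abs_le.2 ⟨hk2.1, hk2.2⟩; linarith
  let P : ℝ × ℝ → E := fun k => Φ.symm (L k)
  let W : Set E := {y | |⟪e₁, y - x₀⟫_ℝ| < r ∧ |⟪e₂, y - x₀⟫_ℝ| < r}
  have hW : IsOpen W := by
    have c1 : Continuous fun y : E => |⟪e₁, y - x₀⟫_ℝ| := by fun_prop
    have c2 : Continuous fun y : E => |⟪e₂, y - x₀⟫_ℝ| := by fun_prop
    exact (isOpen_lt c1 continuous_const).inter (isOpen_lt c2 continuous_const)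
  set N : Set E := Φ.source ∩ Φ ⁻¹' W with hN
  have hNo : IsOpen N := Φ.isOpen_inter_preimage hW
  let f : E → ℝ := fun y => ⟪e₁, Φ y⟫_ℝ
  have hΦP : ∀ k ∈ Ω, Φ (P k) = L k := fun k hk => Φ.right_inv hk
  have hPs : ∀ k ∈ Ω, P k ∈ Φ.source := fun k hk => Φ.map_target hk
  have hderiv : ∀ k ∈ Ω, HasFDerivAt P ((fderiv ℝ Φ.symm (L k)) ∘L A) k := by
    intro k hk
    have h3 : DifferentiableAt ℝ Φ.symm (L k) := by
      have := differentiableAt_symm h2 (hPs k hk)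
      rwa [hΦP k hk] at this
    exact h3.hasFDerivAt.comp k (m3_hasFDerivAt x₀ e₁ e₂ k)
  have hfd : ∀ k ∈ Ω, fderiv ℝ P k = (fderiv ℝ Φ.symm (L k)) ∘L A := fun k hk =>
    (hderiv k hk).fderiv
  -- the half box is mapped to `M`
  have hPM : ∀ k ∈ Ω, 0 ≤ k.1 → P k ∈ M := by
    intro k hk hk1
    rw [hM _ (hPs k hk), hΦP k hk]
    refine ⟨hLK k, ?_⟩
    rw [hin, hL1']
    positivity
  have hMN : ∀ y ∈ M ∩ N, ∃ k : ℝ × ℝ, k.1 ∈ Ico 0 r ∧ k.2 ∈ Ioo (-r) r ∧ P k = y ∧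
      k.1 = f y := by
    rintro y ⟨hyM, hys, hyW⟩
    have h3 := (hM y hys).1 hyM
    refine ⟨(⟪e₁, Φ y - x₀⟫_ℝ, ⟪e₂, Φ y - x₀⟫_ℝ), ⟨?_, ?_⟩, ?_, ?_, ?_⟩
    · simp only
      rw [inner_sub_right, hx₀e, sub_zero]
      have h4 := h3.2
      rw [hin] at h4
      exact nonneg_of_mul_nonneg_right h4 hne
    · exact (abs_lt.1 hyW.1).2
    · exact abs_lt.1 hyW.2
    · show Φ.symm (L _) = y
      rw [← hLeq _ h3.1, Φ.left_inv hys]
    · simp only [f]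
      rw [inner_sub_right, hx₀e, sub_zero]
  have hsub : Icc (0 : ℝ) r ×ˢ Icc (-r) r ⊆ Ω := by
    rintro k ⟨hk1, hk2⟩
    exact hbox k ⟨by linarith [hk1.1], hk1.2⟩ hk2
  have hnotN : ∀ k ∈ Ω, (r ≤ |k.1| ∨ r ≤ |k.2|) → P k ∉ N := by
    intro k hk hk' hkN
    have h3 : Φ (P k) ∈ W := hkN.2
    rw [hΦP k hk] at h3
    have h4 : |⟪e₁, L k - x₀⟫_ℝ| < r := h3.1
    have h5 : |⟪e₂, L k - x₀⟫_ℝ| < r := h3.2
    rw [hL1] at h4
    rw [hL2] at h5
    rcases hk' with h | h <;> linarith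
  -- positive tangent cones
  have hsup : ∀ k ∈ Ω, 0 ≤ k.1 → ∀ α β : ℝ, 0 ≤ α →
      fderiv ℝ P k (α, β) ∈ posTangentConeAt M (P k) := by
    intro k hk hk1 α β hα
    have h3 : (α, β) ∈ posTangentConeAt (Ω ∩ {k' : ℝ × ℝ | 0 ≤ k'.1}) k := by
      apply mem_posTangentConeAt_of_frequently_mem
      apply Filter.Eventually.frequently
      have h4 : Tendsto (fun t : ℝ => k + t • (α, β)) (𝓝[>] 0) (𝓝 k) := by
        have : Continuous (fun t : ℝ => k + t • (α, β)) := by fun_prop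
        have h5 := this.tendsto 0
        simp only [zero_smul, add_zero] at h5
        exact h5.mono_left nhdsWithin_le_nhds
      filter_upwards [h4 (hΩo.mem_nhds hk), self_mem_nhdsWithin] with t ht ht'
      refine ⟨ht, ?_⟩
      show 0 ≤ k.1 + t * α
      have : 0 < t := ht'
      positivity
    have h4 := m3_pos_mapsTo ((hderiv k hk).hasFDerivWithinAt
      (s := Ω ∩ {k' : ℝ × ℝ | 0 ≤ k'.1})) h3
    rw [hfd k hk]
    refine posTangentConeAt_mono ?_ h4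
    rintro _ ⟨k', ⟨hk', hk'1⟩, rfl⟩
    exact hPM k' hk' hk'1
  have hcombo : ∀ (k : ℝ × ℝ) (α β : ℝ), α • d1 P k + β • d2 P k = fderiv ℝ P k (α, β) := by
    intro k α β
    rw [d1, d2, ← map_smul, ← map_smul, ← map_add]
    congr 1
    simp
  have hback : ∀ k ∈ Ω, ∀ v : E, fderiv ℝ Φ (P k) v ∈ K →
      v = fderiv ℝ P k (⟪e₁, fderiv ℝ Φ (P k) v⟫_ℝ, ⟪e₂, fderiv ℝ Φ (P k) v⟫_ℝ) := by
    intro k hk v hv
    rw [hfd k hk]
    show v = fderiv ℝ Φ.symm (L k) (A _)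
    rw [hA]
    simp only
    rw [← hrep _ hv, ← hΦP k hk, fderiv_symm_comp h1 h2 (hPs k hk)]
  refine ⟨N, P, Ω, r, f, ⟨hxs, ?_⟩, ?_⟩
  · show Φ x ∈ W
    rw [← hx₀]
    simp [W, hrpos]
  · refine { pos := hrpos, lt := hrpos, isOpenΩ := hΩo, isOpenN := hNo, sub := hsub, smooth := ?_,
             inj := ?_, imm := ?_, mapsTo := ?_, surj := ?_, right := ?_, top := ?_, bot := ?_,
             tangent := ?_, hsmooth := ?_, hP := ?_, h0 := ?_, B_eq := ?_, cone_sub := ?_,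
             cone_sup := ?_ }
    · exact h2.comp (m3_contDiff x₀ e₁ e₂).contDiffOn (fun k hk => hk)
    · intro k hk k' hk' hkk
      have h3 : L k = L k' := Φ.symm.injOn hk hk' hkk
      apply hAinj
      have h4 : x₀ + A k = x₀ + A k' := h3
      exact add_left_cancel h4
    · intro k hk
      rw [hfd k hk]
      intro v w hvw
      apply hAinj
      have h3 := congrArg (fderiv ℝ Φ (P k))
        (show fderiv ℝ Φ.symm (L k) (A v) = fderiv ℝ Φ.symm (L k) (A w) from hvw)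
      rw [← hΦP k hk, fderiv_comp_symm h1 h2 (hPs k hk), fderiv_comp_symm h1 h2 (hPs k hk)] at h3
      exact h3
    · intro k hk
      exact hPM k (hsub hk) hk.1.1
    · intro y hy
      obtain ⟨k, hk1, hk2, hk3, -⟩ := hMN y hy
      exact ⟨k, ⟨⟨hk1.1, hk1.2.le⟩, ⟨hk2.1.le, hk2.2.le⟩⟩, hk3⟩
    · intro t ht
      refine hnotN _ (hsub ⟨⟨hrpos.le, le_rfl⟩, ht⟩) (Or.inl ?_)
      exact le_abs_self r
    · intro s hs
      refine hnotN _ (hsub ⟨hs, ⟨by linarith, le_rfl⟩⟩) (Or.inr ?_)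
      exact le_abs_self r
    · intro s hs
      refine hnotN _ (hsub ⟨hs, ⟨le_rfl, by linarith⟩⟩) (Or.inr ?_)
      simp only [abs_neg]
      exact le_abs_self r
    · intro k hk
      have hkΩ := hsub hk
      have hkM := hPM k hkΩ hk.1.1
      apply le_antisymm
      · rw [tangentPlane, Submodule.span_le]
        intro v hv
        have h3 := m3_cone h1 hM (hPs k hkΩ) hkM hv
        exact ⟨_, (hback k hkΩ v h3).symm⟩
      · rintro _ ⟨⟨α, β⟩, rfl⟩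
        rcases le_total 0 α with hα | hα
        · apply Submodule.subset_span
          exact tangentConeAt_mono_field (hsup k hkΩ hk.1.1 α β hα)
        · have h3 : fderiv ℝ P k (-α, -β) ∈ tangentPlane M (P k) := by
            apply Submodule.subset_span
            exact tangentConeAt_mono_field (hsup k hkΩ hk.1.1 (-α) (-β) (by linarith))
          have h4 : (fderiv ℝ P k) (α, β) = -(fderiv ℝ P k (-α, -β)) := by
            rw [← map_neg]; simp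
          show (fderiv ℝ P k) (α, β) ∈ _
          rw [h4]
          exact Submodule.neg_mem _ h3
    · have h3 : ContDiffOn ℝ ∞ (fun y => ⟪e₁, Φ y⟫_ℝ) Φ.source :=
        contDiffOn_const.inner ℝ h1
      exact h3.mono inter_subset_left
    · intro k hk _
      show ⟪e₁, Φ (P k)⟫_ℝ = k.1
      rw [hΦP k (hsub hk), hL1']
    · rintro y ⟨hyB, hyN⟩
      have h3 := ((hB y hyN.1).1 hyB).2
      rw [hin] at h3
      exact (mul_eq_zero.1 h3).resolve_left hne.ne'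
    · ext y
      constructor
      · rintro ⟨hyB, hyN⟩
        obtain ⟨k, hk1, hk2, hk3, hk4⟩ := hMN y ⟨h.boundary_subset hyB, hyN⟩
        refine ⟨k, ⟨?_, hk2⟩, hk3⟩
        rw [mem_singleton_iff, hk4]
        have h3 := ((hB y hyN.1).1 hyB).2
        rw [hin] at h3
        exact (mul_eq_zero.1 h3).resolve_left hne.ne'
      · rintro ⟨k, ⟨hk1, hk2⟩, rfl⟩
        rw [mem_singleton_iff] at hk1
        have hkΩ : k ∈ Ω := hsub ⟨by rw [hk1]; exact ⟨le_rfl, hrpos.le⟩, ⟨hk2.1.le, hk2.2.le⟩⟩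
        refine ⟨?_, hPs k hkΩ, ?_⟩
        · rw [hB _ (hPs k hkΩ), hΦP k hkΩ, hin, hL1', hk1, mul_zero]
          exact ⟨hLK k, rfl⟩
        · show Φ (P k) ∈ W
          rw [hΦP k hkΩ]
          show |⟪e₁, L k - x₀⟫_ℝ| < r ∧ |⟪e₂, L k - x₀⟫_ℝ| < r
          rw [hL1, hL2, hk1, abs_zero]
          exact ⟨hrpos, abs_lt.2 hk2⟩
    · intro t ht v hv
      have hkΩ : ((0 : ℝ), t) ∈ Ω := hsub ⟨⟨le_rfl, hrpos.le⟩, ⟨ht.1.le, ht.2.le⟩⟩
      have hkM := hPM _ hkΩ le_rfl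
      have h3 := m3_pos_cone h1 hM (hPs _ hkΩ) hkM hv
      refine ⟨_, _, ?_, (hback _ hkΩ v h3.1).trans (hcombo _ _ _).symm⟩
      have h4 := h3.2 (by rw [hΦP _ hkΩ, hin, hL1', mul_zero])
      rw [hin] at h4
      exact nonneg_of_mul_nonneg_right h4 hne
    · intro t ht α β hα
      have hkΩ : ((0 : ℝ), t) ∈ Ω := hsub ⟨⟨le_rfl, hrpos.le⟩, ⟨ht.1.le, ht.2.le⟩⟩
      rw [hcombo]
      exact hsup _ hkΩ le_rfl α β hα

end Pool.Agent.Helper74.Iso3
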